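import Mathlib

set_option autoImplicit false

/-! Finite free sets for countable valued set mappings. -/

namespace Pool.Agent.Zk90.DTN

open Set Cardinal

universe u

theorem free_set {L : Type u} (m : ℕ) : ∀ (M : Set L), ℵ_ (m : Ordinal.{u}) ≤ #M →
    ∀ C : Finset L → Set L, (∀ s, (C s).Countable) →
    ∃ A : Finset L, (A : Set L) ⊆ M ∧ A.card = m ∧
      ∀ a ∈ A, ∃ B : Finset L, a ∉ B ∧ (∀ x ∈ A, x = a ∨ x ∈ B) ∧ a ∉ C B := by
  classical
  induction m with
  | zero =>
    intro M _ C _
    exact ⟨∅, by simp, rfl, by simp⟩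
  | succ m ih =>
    intro M hM C hC
    have hsucc : ℵ_ ((m : Ordinal.{u})) < ℵ_ (((m + 1 : ℕ) : Ordinal.{u})) := by
      apply aleph_lt_aleph.2
      exact_mod_cast Nat.lt_succ_self m
    have h1 : ℵ_ (m : Ordinal.{u}) < #M := hsucc.trans_le hM
    obtain ⟨M0, hM0, hM0c⟩ := le_mk_iff_exists_subset.mp h1.le
    have hal : (ℵ₀ : Cardinal.{u}) ≤ ℵ_ (m : Ordinal.{u}) := aleph0_le_aleph _
    have hinf : Infinite M0 := by
      rw [infinite_iff, hM0c]
      exact hal
    let N : Set L := M0 ∪ ⋃ s : Finset M0, C (s.map (Function.Embedding.subtype _))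
    have hN : #N ≤ ℵ_ (m : Ordinal.{u}) := by
      refine (mk_union_le _ _).trans ?_
      have h2 : #(⋃ s : Finset M0, C (s.map (Function.Embedding.subtype _)) : Set L) ≤
          ℵ_ (m : Ordinal.{u}) := by
        refine (mk_iUnion_le _).trans ?_
        have h3 : (⨆ s : Finset M0, #(C (s.map (Function.Embedding.subtype _)))) ≤ ℵ₀ :=
          ciSup_le' fun s => le_aleph0_iff_set_countable.mpr (hC _)
        refine (mul_le_mul' le_rfl h3).trans ?_
        rw [mk_finset_of_infinite, hM0c]
        exact (mul_aleph0_eq hal).le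
      rw [hM0c]
      exact (add_le_add le_rfl h2).trans (add_eq_self hal).le
    obtain ⟨a, haM, haN⟩ : ∃ a ∈ M, a ∉ N := by
      by_contra hcon
      push Not at hcon
      exact absurd (mk_le_mk_of_subset hcon) (not_le.2 (hN.trans_lt h1))
    obtain ⟨A0, hA0, hA0c, hfree⟩ := ih M0 hM0c.ge (fun s => C (insert a s)) (fun s => hC _)
    have haA0 : a ∉ A0 := fun h => haN (Or.inl (hA0 h))
    refine ⟨insert a A0, ?_, ?_, ?_⟩
    · rw [Finset.coe_insert, insert_subset_iff]
      exact ⟨haM, hA0.trans hM0⟩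
    · rw [Finset.card_insert_of_notMem haA0, hA0c]
    · intro b hb
      rcases Finset.mem_insert.1 hb with rfl | hb
      · refine ⟨A0, haA0, fun x hx => Finset.mem_insert.1 hx, fun h => haN (Or.inr ?_)⟩
        refine mem_iUnion.2 ⟨A0.subtype (· ∈ M0), ?_⟩
        have : (A0.subtype (· ∈ M0)).map (Function.Embedding.subtype _) = A0 := by
          ext x
          simp only [Finset.mem_map, Finset.mem_subtype, Function.Embedding.subtype_apply,
            Subtype.exists, exists_and_left, exists_prop, exists_eq_right_right]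
          constructor
          · rintro ⟨h, -⟩
            exact h
          · intro h
            exact ⟨h, hA0 h⟩
        rw [this]
        exact h
      · obtain ⟨B, hbB, hAB, hbC⟩ := hfree b hb
        have hab : b ≠ a := fun h => haA0 (h ▸ hb)
        refine ⟨insert a B, ?_, ?_, hbC⟩
        · rw [Finset.mem_insert, not_or]
          exact ⟨hab, hbB⟩
        · intro x hx
          rcases Finset.mem_insert.1 hx with rfl | hx
          · simp
          · rcases hAB x hx with rfl | h
            · exact Or.inl rfl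
            · exact Or.inr (Finset.mem_insert_of_mem h)

/-- Free sets for monotone set mappings. -/
theorem free_set_mono {L : Type u} (hL : ℵ_ Ordinal.omega0.{u} ≤ #L) (m : ℕ)
    (C : Finset L → Set L) (hC : ∀ s, (C s).Countable) :
    ∃ A : Finset L, A.card = m ∧ ∀ a ∈ A, ∀ s ⊆ A, a ∉ s → ∀ t ⊆ s, a ∉ C t := by
  classical
  have h0 : ℵ_ (m : Ordinal.{u}) ≤ #(univ : Set L) := by
    rw [mk_univ]
    exact (aleph_le_aleph.2 (Ordinal.natCast_lt_omega0 m).le).trans hL
  obtain ⟨A, -, hA, hfree⟩ := free_set m univ h0 (fun s => ⋃ t ∈ s.powerset, C t)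
    (fun s => s.powerset.countable_toSet.biUnion fun t _ => hC t)
  refine ⟨A, hA, fun a ha s hs has t ht hat => ?_⟩
  obtain ⟨B, haB, hAB, haC⟩ := hfree a ha
  apply haC
  refine mem_iUnion₂.2 ⟨t, ?_, hat⟩
  rw [Finset.mem_powerset]
  intro x hx
  rcases hAB x (hs (ht hx)) with rfl | h
  · exact absurd (ht hx) has
  · exact h

end Pool.Agent.Zk90.DTN
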