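import Pool.Agent.Zk90.DTN.Card
import Pool.Agent.Zk90.DTN.FreeSet

set_option autoImplicit false

/-! Points of the range whose fibres see nothing in common in finitely many covers. -/

namespace Pool.Agent.Zk90.DTN

open Set Cardinal

variable {L : Type} [Infinite L]

theorem canon (n : ℕ) (D : Finset (Cov L)) : (∀ β ∈ D, Valid sp β) → ∀ m, D.card = m →
    ∃ (Z : ((Fin m → Fin (n + 1)) → L) → K L) (𝒦 : Set L → Set (K L)),
      (∀ s t, s ⊆ t → 𝒦 s ⊆ 𝒦 t) ∧ (∀ s, s.Finite → (𝒦 s).Countable) ∧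
      ∀ l, (Z l).ar = n ∧ (Z l).lab ⊆ range l ∧ Z l ∈ 𝒦 (range l) ∧
        ∀ β ∈ D, ∀ i : Fin (n + 1), SS sp β i (Z l) ⊆ 𝒦 (l '' {s | i ∈ range s}) := by
  classical
  refine Finset.induction_on_max_value rk D ?_ ?_
  · intro _ m hm
    rw [Finset.card_empty] at hm
    subst hm
    refine ⟨fun l => K.base n (l Fin.elim0), fun s => {x | ∃ a ∈ s, x = K.base n a}, ?_, ?_, ?_⟩
    · rintro s t hst _ ⟨a, ha, rfl⟩
      exact ⟨a, hst ha, rfl⟩
    · intro s hs
      refine ((hs.image (K.base n)).subset ?_).countable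
      rintro _ ⟨a, ha, rfl⟩
      exact ⟨a, ha, rfl⟩
    · intro l
      refine ⟨rfl, ?_, ⟨_, ⟨_, rfl⟩, rfl⟩, by simp⟩
      intro a ha
      exact ⟨_, (show a = l Fin.elim0 from ha).symm⟩
  · intro β D' hβD hmax ih hval m hm
    rw [Finset.card_insert_of_notMem hβD] at hm
    subst hm
    obtain ⟨Z', 𝒦', hmono, hcnt, hZ'⟩ := ih (fun β' h => hval β' (Finset.mem_insert_of_mem h)) _ rfl
    have hβval : Valid sp β := hval β (Finset.mem_insert_self _ _)
    let z : ((Fin (D'.card + 1) → Fin (n + 1)) → L) → Fin (n + 1) → K L :=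
      fun l k => Z' fun s' => l (Fin.cons k s')
    have hzar : ∀ l k, (z l k).ar = n := fun l k => (hZ' _).1
    have hγ : ∀ l, ∃ γ : Gam L, sp γ β ∧ (∀ k, ∀ β' ∈ hsp β (z l k), ¬ sp γ β') ∧
        (∀ k, K.node n (z l) γ ∉ hx β (z l k)) ∧ ∀ β' ∈ D', ¬ sp γ β' ∧ ∀ i : Fin (n + 1),
          ∀ x ∈ SS sp β' i (z l 0), (∀ β'' ∈ hsp β' x, ¬ sp γ β'') ∧
            K.node n (z l) γ ∉ hx β' x := by
      intro l
      let F : Set (Cov L) := (⋃ k, hsp β (z l k)) ∪ ((D' : Set (Cov L)) ∪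
        ⋃ β' ∈ D', ⋃ i : Fin (n + 1), ⋃ x ∈ SS sp β' i (z l 0), hsp β' x)
      have hF : F.Finite := by
        refine (finite_iUnion fun k => hsp_finite _ _).union (D'.finite_toSet.union ?_)
        exact Set.Finite.biUnion D'.finite_toSet fun β' _ => finite_iUnion fun i =>
          (SS_finite sp β' i (z l 0)).biUnion fun x _ => hsp_finite _ _
      let B : Set (K L) := (⋃ k, hx β (z l k)) ∪
        ⋃ β' ∈ D', ⋃ i : Fin (n + 1), ⋃ x ∈ SS sp β' i (z l 0), hx β' x
      have hB : B.Finite := by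
        refine (finite_iUnion fun k => hx_finite _ _).union ?_
        exact Set.Finite.biUnion D'.finite_toSet fun β' _ => finite_iUnion fun i =>
          (SS_finite sp β' i (z l 0)).biUnion fun x _ => hx_finite _ _
      have hinj : Function.Injective fun γ : Gam L => K.node n (z l) γ := by
        intro γ γ' h
        simpa using h
      have hβF : β ∉ F := by
        rintro (h | h | h)
        · obtain ⟨k, hk⟩ := mem_iUnion.1 h
          exact lt_irrefl _ (hsp_rk _ _ _ hk)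
        · exact hβD h
        · simp only [mem_iUnion] at h
          obtain ⟨β', hβ', i, x, hx', h⟩ := h
          exact lt_irrefl _ ((hsp_rk _ _ _ h).trans_le (hmax β' hβ'))
      obtain ⟨γ, hγG, hγβ, hγF⟩ := exists_gam β hF hβF (hB.preimage hinj.injOn)
      refine ⟨γ, hγβ, fun k β' h => hγF _ (Or.inl (mem_iUnion.2 ⟨k, h⟩)),
        fun k h => hγG (Or.inl (mem_iUnion.2 ⟨k, h⟩)), fun β' hβ' =>
        ⟨hγF _ (Or.inr (Or.inl hβ')), fun i x hx' => ⟨fun β'' h => hγF _ (Or.inr (Or.inr ?_)),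
          fun h => hγG (Or.inr ?_)⟩⟩⟩
      · simp only [mem_iUnion]
        exact ⟨β', hβ', i, x, hx', h⟩
      · simp only [mem_iUnion]
        exact ⟨β', hβ', i, x, hx', h⟩
    choose γ g1 g2 g3 g4 using hγ
    let Z : ((Fin (D'.card + 1) → Fin (n + 1)) → L) → K L := fun l => K.node n (z l) (γ l)
    refine ⟨Z, fun s => 𝒦' s ∪ {x | ∃ l, range l ⊆ s ∧ x = Z l}, ?_, ?_, ?_⟩
    · rintro s t hst x (h | ⟨l, hl, rfl⟩)
      · exact Or.inl (hmono s t hst h)
      · exact Or.inr ⟨l, hl.trans hst, rfl⟩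
    · intro s hs
      refine (hcnt s hs).union ?_
      have h1 : (Set.pi univ fun _ : (Fin (D'.card + 1) → Fin (n + 1)) => s).Finite :=
        Set.Finite.pi fun _ => hs
      refine ((h1.image Z).subset ?_).countable
      rintro _ ⟨l, hl, rfl⟩
      exact ⟨l, fun t _ => hl ⟨t, rfl⟩, rfl⟩
    · intro l
      refine ⟨rfl, ?_, Or.inr ⟨l, subset_rfl, rfl⟩, ?_⟩
      · refine iUnion_subset fun k => (hZ' _).2.1.trans ?_
        rintro _ ⟨s', rfl⟩
        exact ⟨_, rfl⟩
      · intro β' hβ' i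
        rcases Finset.mem_insert.1 hβ' with rfl | hβ'
        · refine (split sp (hzar l) hβval (g1 l) i (g2 l i) (g3 l i)).trans ?_
          rw [singleton_subset_iff]
          refine Or.inl (hmono _ _ ?_ (hZ' fun s' => l (Fin.cons i s')).2.2.1)
          rintro _ ⟨s', rfl⟩
          exact ⟨Fin.cons i s', ⟨0, by simp⟩, rfl⟩
        · obtain ⟨x, hx'⟩ := SS_nonempty sp (hval β' (Finset.mem_insert_of_mem hβ')) i (z l 0)
          obtain ⟨h1, h2⟩ := g4 l β' hβ'
          obtain ⟨h3, h4⟩ := h2 i x hx'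
          refine (nosplit sp h1 i 0 (hzar l 0) x hx' h3 h4).trans ?_
          refine iUnion_subset fun k => ?_
          refine ((hZ' fun s' => l (Fin.cons k s')).2.2.2 β' hβ' i).trans ?_
          refine subset_trans (hmono _ _ ?_) subset_union_left
          rintro _ ⟨s', ⟨j, hj⟩, rfl⟩
          exact ⟨Fin.cons k s', ⟨j.succ, by simp [hj]⟩, rfl⟩

/-- The canonical lemma. -/
theorem canonical (hL : ℵ_ Ordinal.omega0.{0} ≤ #L) (D : Finset (Cov L))
    (hD : ∀ β ∈ D, Valid sp β) (C : Finset (Cov L × K L) → ℕ → Set L)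
    (hC : ∀ h i, (C h i).Countable) :
    ∃ y : K L, y.ar = D.card ∧ ∀ u ∈ y.lab, ∃ i ≤ y.ar, ∀ h : Finset (Cov L × K L),
      (∀ c ∈ h, c.1 ∈ D ∧ c.2 ∈ SS sp c.1 i y) → u ∉ C h i := by
  classical
  set n := D.card with hn
  obtain ⟨Z, 𝒦, hmono, hcnt, hZ⟩ := canon n D hD n hn.symm
  let C' : Finset L → Set L := fun s =>
    ⋃ i : ℕ, ⋃ h ∈ {h : Finset (Cov L × K L) | ∀ c ∈ h, c.1 ∈ D ∧ c.2 ∈ 𝒦 (s : Set L)}, C h i
  have hC' : ∀ s, (C' s).Countable := by
    intro s
    refine countable_iUnion fun i => Set.Countable.biUnion ?_ fun h _ => hC h i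
    have h1 : ((D : Set (Cov L)) ×ˢ 𝒦 (s : Set L)).Countable :=
      D.countable_toSet.prod (hcnt _ s.finite_toSet)
    have h2 := Set.countable_ofPred_finite_subset h1
    refine (h2.preimage (Finset.coe_injective (α := Cov L × K L))).mono ?_
    intro h hh
    refine ⟨h.finite_toSet, fun c hc => ?_⟩
    exact ⟨(hh c hc).1, (hh c hc).2⟩
  obtain ⟨A, hA, hfree⟩ := free_set_mono hL ((n + 1) ^ n) C' hC'
  have e : (Fin n → Fin (n + 1)) ≃ A := by
    refine Fintype.equivOfCardEq ?_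
    rw [Fintype.card_coe, hA]
    simp
  let l : (Fin n → Fin (n + 1)) → L := fun s => e s
  have hl : Function.Injective l := fun s t h => e.injective (Subtype.ext h)
  obtain ⟨h1, h2, h3, h4⟩ := hZ l
  refine ⟨Z l, h1, ?_⟩
  intro u hu
  obtain ⟨s0, rfl⟩ := h2 hu
  obtain ⟨i, hi⟩ : ∃ i : Fin (n + 1), i ∉ range s0 := by
    by_contra hcon
    push Not at hcon
    have h5 : Function.Surjective s0 := hcon
    have := Fintype.card_le_of_surjective s0 h5
    simp at this
  refine ⟨i, ?_, ?_⟩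
  · rw [h1]
    omega
  intro h hh huC
  let B : Finset L := (Finset.univ.filter fun s : Fin n → Fin (n + 1) => i ∈ range s).image l
  have hBeq : (B : Set L) = l '' {s | i ∈ range s} := by
    ext x
    simp [B]
  have hBA : B ⊆ A := by
    intro x hx'
    obtain ⟨s, -, rfl⟩ := Finset.mem_image.1 hx'
    exact (e s).2
  have huB : l s0 ∉ B := by
    intro hx'
    obtain ⟨s, hs, hs'⟩ := Finset.mem_image.1 hx'
    rw [hl hs'] at hs
    exact hi (Finset.mem_filter.1 hs).2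
  refine hfree (l s0) (e s0).2 B hBA huB B subset_rfl ?_
  refine mem_iUnion.2 ⟨i, mem_iUnion₂.2 ⟨h, fun c hc => ⟨(hh c hc).1, ?_⟩, huC⟩⟩
  rw [hBeq]
  exact h4 c.1 (hh c hc).1 i (hh c hc).2

end Pool.Agent.Zk90.DTN
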