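import Pool.Agent.Zk90.DTN.Codes

set_option autoImplicit false

/-! Cardinalities, and a dense family of splitting patterns. -/

namespace Pool.Agent.Zk90.DTN

open Set Cardinal

section

variable {L : Type}

/-- Branching of the auxiliary W-type. -/
abbrev Br (L : Type) : (ℕ × L) ⊕ (ℕ × Gam L) → Type
  | .inl _ => Fin 0
  | .inr p => Fin (p.1 + 1)

instance (a : (ℕ × L) ⊕ (ℕ × Gam L)) : Finite (Br L a) := by
  cases a <;> (dsimp only [Br]; infer_instance)

/-- The points as elements of a W-type. -/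
def toW : K L → WType (Br L)
  | .base n l => WType.mk (.inl (n, l)) Fin.elim0
  | .node n z γ => WType.mk (.inr (n, γ)) fun k => toW (z k)

theorem toW_injective : ∀ x y : K L, toW x = toW y → x = y
  | .base n l, .base n' l', h => by
    simp only [toW, WType.mk.injEq, Sum.inl.injEq, Prod.mk.injEq] at h
    obtain ⟨⟨rfl, rfl⟩, -⟩ := h
    rfl
  | .base n l, .node n' z' γ', h => by
    simp [toW] at h
  | .node n z γ, .base n' l', h => by
    simp [toW] at h
  | .node n z γ, .node n' z' γ', h => by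
    simp only [toW, WType.mk.injEq, Sum.inr.injEq, Prod.mk.injEq] at h
    obtain ⟨⟨rfl, rfl⟩, h⟩ := h
    have h1 : z = z' := by
      funext k
      exact toW_injective _ _ (congrFun (eq_of_heq h) k)
    rw [h1]

variable [Infinite L]

theorem mk_gam : #(Gam L) = #L := by
  rw [mk_prod, lift_id, mk_finset_of_infinite]
  exact mul_eq_self (aleph0_le_mk L)

theorem mk_K_le : #(K L) ≤ #L := by
  have h1 : #(K L) ≤ #(WType (Br L)) :=
    mk_le_of_injective (f := toW) fun x y h => toW_injective x y h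
  refine h1.trans ((WType.cardinalMk_le_max_aleph0_of_finite (β := Br L)).trans ?_)
  refine max_le ?_ (aleph0_le_mk L)
  have h0 := aleph0_le_mk L
  rw [mk_sum, lift_id, lift_id, mk_prod, mk_prod, lift_id, lift_id, lift_id, mk_gam, mk_nat,
    aleph0_mul_eq h0, add_eq_self h0]

instance : Infinite (K L) :=
  Infinite.of_injective (fun l : L => K.base 0 l) fun l l' h => by simpa using h

theorem mk_dat_le : #(Dat L) ≤ #L := by
  have h0 := aleph0_le_mk L
  have hK : #(K L) ≤ #L := mk_K_le
  have h1 : #(List (ℕ × K L)) ≤ #L := by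
    rw [mk_list_eq_mk, mk_prod, lift_id, lift_id, mk_nat]
    exact (mul_le_mul' le_rfl hK).trans (aleph0_mul_eq h0).le
  have h2 : #(Finset L) ≤ #L := by rw [mk_finset_of_infinite]
  have h3 : #(Finset (K L)) ≤ #L := by
    rw [mk_finset_of_infinite]
    exact hK
  rw [mk_prod, mk_prod, lift_id, lift_id, lift_id, lift_id]
  exact (mul_le_mul' h1 ((mul_le_mul' h2 h3).trans (mul_eq_self h0).le)).trans
    (mul_eq_self h0).le

theorem mk_Cov_le : #(Cov L) ≤ #(Set L) := by
  have h0 := aleph0_le_mk L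
  have hK : #(K L) ≤ #L := mk_K_le
  rw [mk_set]
  refine WType.cardinalMk_le_of_le ?_
  have h1 : #(K L → Dat L) ≤ 2 ^ #L := by
    rw [← power_def]
    calc #(Dat L) ^ #(K L) ≤ #L ^ #(K L) := power_le_power_right mk_dat_le
      _ ≤ #L ^ #L := power_le_power_left (ne_of_gt (aleph0_pos.trans_le h0)) hK
      _ = 2 ^ #L := power_self_eq h0
  have h2 : ∀ a : K L → Dat L, (2 ^ #L : Cardinal.{0}) ^ #(Σ x : K L, Fin (a x).1.length) ≤
      2 ^ #L := by
    intro a
    rw [← power_mul]
    refine power_le_power_left two_ne_zero ?_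
    have h3 : #(Σ x : K L, Fin (a x).1.length) ≤ #L := by
      have h4 : #(Σ x : K L, Fin (a x).1.length) ≤ #(K L × ℕ) :=
        mk_le_of_injective (f := fun p => (p.1, (p.2 : ℕ))) (by
          rintro ⟨x, k⟩ ⟨x', k'⟩ h
          simp only [Prod.mk.injEq] at h
          obtain ⟨rfl, h⟩ := h
          rw [Fin.ext h])
      refine h4.trans ?_
      rw [mk_prod, lift_id, lift_id, mk_nat]
      exact (mul_le_mul' hK le_rfl).trans (mul_aleph0_eq h0).le
    exact (mul_le_mul' le_rfl h3).trans (mul_eq_self h0).le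
  have h5 : (ℵ₀ : Cardinal.{0}) ≤ 2 ^ #L := h0.trans (cantor _).le
  calc (Cardinal.sum fun a : K L → Dat L =>
        (2 ^ #L : Cardinal.{0}) ^ #(Σ x : K L, Fin (a x).1.length))
      ≤ Cardinal.sum fun _ : K L → Dat L => (2 ^ #L : Cardinal.{0}) := sum_le_sum _ _ h2
    _ = #(K L → Dat L) * 2 ^ #L := by rw [sum_const, lift_id, lift_id]
    _ ≤ 2 ^ #L * 2 ^ #L := mul_le_mul' h1 le_rfl
    _ = 2 ^ #L := mul_eq_self h5

theorem exists_io : ∃ io : Cov L → Set L, Function.Injective io := by
  obtain ⟨e⟩ := (Cardinal.le_def _ _).1 (mk_Cov_le (L := L))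
  exact ⟨e, e.injective⟩

variable (L) in
/-- An injection of the codes of covers into the subsets of `L`. -/
noncomputable def io : Cov L → Set L := (exists_io (L := L)).choose

theorem io_injective : Function.Injective (io L) := (exists_io (L := L)).choose_spec

/-- The splitting patterns. -/
def sp (γ : Gam L) (β : Cov L) : Prop := (γ.1 : Set L) ∩ io L β = (γ.2 : Set L)

/-- The splitting patterns are dense. -/
theorem exists_gam (β : Cov L) {F : Set (Cov L)} (hF : F.Finite) (hβ : β ∉ F)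
    {G : Set (Gam L)} (hG : G.Finite) :
    ∃ γ : Gam L, γ ∉ G ∧ sp γ β ∧ ∀ β' ∈ F, ¬ sp γ β' := by
  classical
  have h1 : ∀ β' ∈ F, ∃ l, ¬ (l ∈ io L β ↔ l ∈ io L β') := by
    intro β' hβ'
    by_contra hcon
    push Not at hcon
    exact hβ (io_injective (Set.ext hcon) ▸ hβ')
  have hne : Nonempty L := inferInstance
  choose! d hd using h1
  obtain ⟨a, ha⟩ : ∃ a : L, a ∉ ⋃ γ ∈ G, (γ.1 : Set L) :=
    (hG.biUnion fun γ _ => γ.1.finite_toSet).exists_notMem
  let F0 : Finset L := insert a (hF.toFinset.image d)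
  refine ⟨(F0, F0.filter (· ∈ io L β)), ?_, ?_, ?_⟩
  · intro h
    exact ha (mem_iUnion₂.2 ⟨_, h, by simp [F0]⟩)
  · ext l
    simp
  · intro β' hβ' h
    apply hd β' hβ'
    have h2 : d β' ∈ F0 :=
      Finset.mem_insert_of_mem (Finset.mem_image_of_mem d (hF.mem_toFinset.2 hβ'))
    have h3 : d β' ∈ ((F0 : Set L) ∩ io L β') ↔ d β' ∈ ((F0.filter (· ∈ io L β) : Finset L) : Set L) := by
      rw [show ((F0 : Set L) ∩ io L β') = ((F0.filter (· ∈ io L β) : Finset L) : Set L) from h]
    simp only [mem_inter_iff, Finset.mem_coe, Finset.mem_filter, h2, true_and] at h3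
    exact h3.symm

end

end Pool.Agent.Zk90.DTN
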