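import Mathlib

set_option autoImplicit false

/-! The points of the range of the example, codes of open covers, and the adversary's refinements. -/

namespace Pool.Agent.Zk90.DTN

open Set Cardinal

/-- Labels deciding which covers are split at a point. -/
abbrev Gam (L : Type) : Type := Finset L × Finset L

/-- The points with finite fibres: finite trees, all of whose nodes have `n + 1` children. -/
inductive K (L : Type) : Type
  | base (n : ℕ) (l : L) : K L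
  | node (n : ℕ) (z : Fin (n + 1) → K L) (γ : Gam L) : K L

namespace K

variable {L : Type}

/-- The fibre over `y` has `y.ar + 1` points. -/
def ar : K L → ℕ
  | .base n _ => n
  | .node n _ _ => n

/-- The labels of a point. -/
def lab : K L → Set L
  | .base _ l => {l}
  | .node _ z _ => ⋃ k, (z k).lab

theorem lab_nonempty : ∀ y : K L, y.lab.Nonempty
  | .base _ l => ⟨l, rfl⟩
  | .node _ z _ => by
    obtain ⟨l, hl⟩ := lab_nonempty (z 0)
    exact ⟨l, mem_iUnion.2 ⟨0, hl⟩⟩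

end K

/-- The data of a cover at a point: finitely many conditions, labels, and excluded points. -/
abbrev Dat (L : Type) : Type := List (ℕ × K L) × Finset L × Finset (K L)

/-- Codes of covers. -/
abbrev Cov (L : Type) : Type := WType (fun a : K L → Dat L => Σ x : K L, Fin (a x).1.length)

section

variable {L : Type}

/-- One step of the refinement. -/
def stp (s : Gam L → Prop) (ok : K L → K L → Prop) (i : ℕ) : K L → Set (K L)
  | .base n l => {x | x = .base n l ∧ ok x (.base n l)}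
  | .node n z γ =>
    {x | (ok x (.node n z γ) ∧ ((s γ ∧ ∃ k : Fin (n + 1), (k : ℕ) = i ∧ x = z k) ∨
          (¬ s γ ∧ ∃ k, x ∈ stp s ok i (z k)))) ∨
        ((¬ ∃ x', ok x' (.node n z γ) ∧ ((s γ ∧ ∃ k : Fin (n + 1), (k : ℕ) = i ∧ x' = z k) ∨
          (¬ s γ ∧ ∃ k, x' ∈ stp s ok i (z k)))) ∧ x = .node n z γ ∧ ok x (.node n z γ))}

/-- `y` lies in the neighbourhood of `x` described by `a`. -/
def okf (a : K L → Dat L) (g : (Σ x : K L, Fin (a x).1.length) → ℕ → K L → Set (K L))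
    (x y : K L) : Prop :=
  x.ar = y.ar ∧ ((a x).2.1 : Set L) ⊆ y.lab ∧ y ∉ (a x).2.2 ∧
    ∀ k : Fin (a x).1.length, ((a x).1.get k).2 ∈ g ⟨x, k⟩ ((a x).1.get k).1 y

variable (sp : Gam L → Cov L → Prop)

/-- The refinement of the cover `β`: `SS sp β i y` is the set of the indices `x` of the members
containing the point `(y, i)`. -/
def SS : Cov L → ℕ → K L → Set (K L)
  | ⟨a, f⟩ => stpAux ⟨a, f⟩ (okf a fun b => SS (f b))
where
  stpAux (β : Cov L) (ok : K L → K L → Prop) (i : ℕ) (y : K L) : Set (K L) :=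
    stp (fun γ => sp γ β) ok i y

/-- `y` lies in the member of the cover `β` given to `x`. -/
def sat : Cov L → K L → K L → Prop
  | ⟨a, f⟩ => okf a fun b => SS sp (f b)

theorem SS_eq (β : Cov L) (i : ℕ) (y : K L) :
    SS sp β i y = stp (fun γ => sp γ β) (sat sp β) i y := by
  cases β
  rfl

theorem sat_mk (a : K L → Dat L) (f : (Σ x : K L, Fin (a x).1.length) → Cov L) (x y : K L) :
    sat sp ⟨a, f⟩ x y ↔ x.ar = y.ar ∧ ((a x).2.1 : Set L) ⊆ y.lab ∧ y ∉ (a x).2.2 ∧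
      ∀ k : Fin (a x).1.length, ((a x).1.get k).2 ∈ SS sp (f ⟨x, k⟩) ((a x).1.get k).1 y :=
  Iff.rfl

theorem rule {β : Cov L} {i : ℕ} {x y : K L} (h : x ∈ SS sp β i y) : sat sp β x y := by
  rw [SS_eq] at h
  cases y with
  | base n l => exact h.2
  | node n z γ =>
    rcases h with h | h
    · exact h.1
    · exact h.2.2

theorem sat_ar {β : Cov L} {x y : K L} (h : sat sp β x y) : x.ar = y.ar := by
  cases β
  exact h.1

/-- A code of a cover. -/
def Valid (β : Cov L) : Prop := ∀ y, sat sp β y y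

theorem SS_nonempty {β : Cov L} (hβ : Valid sp β) (i : ℕ) (y : K L) :
    (SS sp β i y).Nonempty := by
  rw [SS_eq]
  cases y with
  | base n l => exact ⟨_, rfl, hβ _⟩
  | node n z γ =>
    by_cases h : ∃ x', sat sp β x' (.node n z γ) ∧
        ((sp γ β ∧ ∃ k : Fin (n + 1), (k : ℕ) = i ∧ x' = z k) ∨
          (¬ sp γ β ∧ ∃ k, x' ∈ stp (fun γ => sp γ β) (sat sp β) i (z k)))
    · obtain ⟨x', hx'⟩ := h
      exact ⟨x', Or.inl hx'⟩
    · exact ⟨.node n z γ, Or.inr ⟨h, rfl, hβ _⟩⟩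

theorem SS_finite (β : Cov L) (i : ℕ) (y : K L) : (SS sp β i y).Finite := by
  induction y with
  | base n l =>
    rw [SS_eq]
    exact (finite_singleton (K.base n l)).subset fun x hx => hx.1
  | node n z γ ih =>
    rw [SS_eq]
    have h1 : (range z ∪ (⋃ k, SS sp β i (z k)) ∪ {K.node n z γ}).Finite :=
      ((finite_range z).union (finite_iUnion ih)).union (finite_singleton _)
    refine h1.subset ?_
    rintro x (⟨-, ⟨-, k, -, rfl⟩ | ⟨-, k, hk⟩⟩ | ⟨-, rfl, -⟩)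
    · exact Or.inl (Or.inl ⟨k, rfl⟩)
    · refine Or.inl (Or.inr (mem_iUnion.2 ⟨k, ?_⟩))
      rw [SS_eq]
      exact hk
    · exact Or.inr rfl

/-- The rank of a code. -/
noncomputable def rk : Cov L → Ordinal.{0}
  | ⟨_, f⟩ => ⨆ b, Order.succ (rk (f b))

theorem rk_lt (a : K L → Dat L) (f : (Σ x : K L, Fin (a x).1.length) → Cov L)
    (b : Σ x : K L, Fin (a x).1.length) : rk (f b) < rk ⟨a, f⟩ := by
  have h : rk (⟨a, f⟩ : Cov L) = ⨆ b, Order.succ (rk (f b)) := rfl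
  rw [h]
  exact (Order.lt_succ _).trans_le (Ordinal.le_iSup (fun b => Order.succ (rk (f b))) b)

/-- The covers on which the neighbourhood of `x` in `β` depends. -/
def hs : Cov L → K L → Set (Cov L)
  | ⟨a, f⟩, x => {⟨a, f⟩} ∪ ⋃ k : Fin (a x).1.length, hs (f ⟨x, k⟩) ((a x).1.get k).2

/-- The same without `β`. -/
def hsp : Cov L → K L → Set (Cov L)
  | ⟨a, f⟩, x => ⋃ k : Fin (a x).1.length, hs (f ⟨x, k⟩) ((a x).1.get k).2

/-- The excluded points. -/
def hx : Cov L → K L → Set (K L)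
  | ⟨a, f⟩, x => ((a x).2.2 : Set (K L)) ∪
      ⋃ k : Fin (a x).1.length, hx (f ⟨x, k⟩) ((a x).1.get k).2

theorem hs_eq (β : Cov L) (x : K L) : hs β x = {β} ∪ hsp β x := by
  cases β
  rfl

theorem hs_finite : ∀ (β : Cov L) (x : K L), (hs β x).Finite
  | ⟨_, f⟩, x => by
    refine (finite_singleton _).union (finite_iUnion fun k => ?_)
    exact hs_finite (f ⟨x, k⟩) _

theorem hsp_finite (β : Cov L) (x : K L) : (hsp β x).Finite :=
  (hs_finite β x).subset (by rw [hs_eq]; exact subset_union_right)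

theorem hx_finite : ∀ (β : Cov L) (x : K L), (hx β x).Finite
  | ⟨a, f⟩, x => by
    refine ((a x).2.2.finite_toSet).union (finite_iUnion fun k => ?_)
    exact hx_finite (f ⟨x, k⟩) _

theorem hs_rk : ∀ (β : Cov L) (x : K L), ∀ β' ∈ hs β x, rk β' ≤ rk β
  | ⟨a, f⟩, x => by
    rintro β' (h | h)
    · rw [mem_singleton_iff] at h
      rw [h]
    · obtain ⟨k, hk⟩ := mem_iUnion.1 h
      exact (hs_rk (f ⟨x, k⟩) _ β' hk).trans (rk_lt a f ⟨x, k⟩).le

theorem hsp_rk (β : Cov L) (x : K L) : ∀ β' ∈ hsp β x, rk β' < rk β := by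
  cases β with
  | mk a f =>
    intro β' h
    obtain ⟨k, hk⟩ := mem_iUnion.1 h
    exact (hs_rk (f ⟨x, k⟩) _ β' hk).trans_lt (rk_lt a f ⟨x, k⟩)

/-- The join lemma. -/
theorem join {n : ℕ} {z : Fin (n + 1) → K L} {γ : Gam L} (k : Fin (n + 1))
    (hz : (z k).ar = n) : ∀ (β : Cov L) (x : K L) (i : ℕ), x ∈ SS sp β i (z k) →
      (∀ β' ∈ hs β x, ¬ sp γ β') → K.node n z γ ∉ hx β x → x ∈ SS sp β i (.node n z γ)
  | ⟨a, f⟩, x, i, hxk, hj, hn => by
    have h1 : sat sp ⟨a, f⟩ x (z k) := rule sp hxk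
    have h2 : sat sp ⟨a, f⟩ x (.node n z γ) := by
      refine ⟨h1.1.trans hz, fun l hl => mem_iUnion.2 ⟨k, h1.2.1 hl⟩, fun h => hn (Or.inl h),
        fun k' => ?_⟩
      exact join k hz (f ⟨x, k'⟩) _ _ (h1.2.2.2 k')
        (fun β' hβ' => hj β' (Or.inr (mem_iUnion.2 ⟨k', hβ'⟩)))
        (fun h => hn (Or.inr (mem_iUnion.2 ⟨k', h⟩)))
    rw [SS_eq]
    refine Or.inl ⟨h2, Or.inr ⟨hj _ (Or.inl rfl), k, ?_⟩⟩
    rw [← SS_eq]
    exact hxk

theorem join_sat {n : ℕ} {z : Fin (n + 1) → K L} {γ : Gam L} (k : Fin (n + 1))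
    (hz : (z k).ar = n) (β : Cov L) (x : K L) (h1 : sat sp β x (z k))
    (hj : ∀ β' ∈ hsp β x, ¬ sp γ β') (hn : K.node n z γ ∉ hx β x) :
    sat sp β x (.node n z γ) := by
  cases β with
  | mk a f =>
    refine ⟨h1.1.trans hz, fun l hl => mem_iUnion.2 ⟨k, h1.2.1 hl⟩, fun h => hn (Or.inl h),
      fun k' => ?_⟩
    exact join sp k hz (f ⟨x, k'⟩) _ _ (h1.2.2.2 k')
      (fun β' hβ' => hj β' (mem_iUnion.2 ⟨k', hβ'⟩))
      (fun h => hn (Or.inr (mem_iUnion.2 ⟨k', h⟩)))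

/-- At a split cover. -/
theorem split {n : ℕ} {z : Fin (n + 1) → K L} {γ : Gam L} (hz : ∀ k, (z k).ar = n) {β : Cov L}
    (hβ : Valid sp β) (hsp' : sp γ β) (i : Fin (n + 1))
    (hj : ∀ β' ∈ hsp β (z i), ¬ sp γ β') (hn : K.node n z γ ∉ hx β (z i)) :
    SS sp β i (.node n z γ) ⊆ {z i} := by
  intro x hx'
  rw [SS_eq] at hx'
  rcases hx' with ⟨-, ⟨-, k, hk, rfl⟩ | ⟨h, -⟩⟩ | ⟨h, -⟩
  · rw [Fin.ext hk]
    rfl
  · exact absurd hsp' h
  · exact absurd ⟨z i, join_sat sp i (hz i) β (z i) (hβ _) hj hn, Or.inl ⟨hsp', i, rfl, rfl⟩⟩ h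

/-- At a cover which is not split. -/
theorem nosplit {n : ℕ} {z : Fin (n + 1) → K L} {γ : Gam L} {β : Cov L}
    (hsp' : ¬ sp γ β) (i : ℕ) (k : Fin (n + 1)) (hz : (z k).ar = n) (x : K L)
    (hxk : x ∈ SS sp β i (z k)) (hj : ∀ β' ∈ hsp β x, ¬ sp γ β') (hn : K.node n z γ ∉ hx β x) :
    SS sp β i (.node n z γ) ⊆ ⋃ k, SS sp β i (z k) := by
  intro x' hx'
  have h1 : sat sp β x (.node n z γ) := join_sat sp k hz β x (rule sp hxk) hj hn
  rw [SS_eq] at hx' hxk
  rcases hx' with ⟨-, ⟨h, -⟩ | ⟨-, k', hk'⟩⟩ | ⟨h, -⟩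
  · exact absurd h hsp'
  · refine mem_iUnion.2 ⟨k', ?_⟩
    rw [SS_eq]
    exact hk'
  · exact absurd ⟨x, h1, Or.inr ⟨hsp', k, hxk⟩⟩ h

end

end Pool.Agent.Zk90.DTN
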