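import Pool.Agent.Zk90.DTN.Space

set_option autoImplicit false

/-! The range is not `δθ`-refinable. -/

namespace Pool.Agent.Zk90.DTN

open Set Cardinal Topology

/-- Uncountable families of finite sets. -/
theorem root {α ι : Type} (a : α → Finset ι) (S : Set α) (hS : ¬ S.Countable) :
    ∃ T ⊆ S, ¬ T.Countable ∧ ∃ R : Finset ι, ∀ b ∉ R, {x ∈ T | b ∈ a x}.Countable := by
  classical
  by_contra hcon
  push Not at hcon
  obtain ⟨n, hn⟩ : ∃ n : ℕ, ¬ {x ∈ S | (a x).card = n}.Countable := by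
    by_contra h
    push Not at h
    apply hS
    refine (countable_iUnion h).mono ?_
    intro x hx
    exact mem_iUnion.2 ⟨(a x).card, hx, rfl⟩
  have key : ∀ m : ℕ, ∃ R : Finset ι, R.card = m ∧ ∃ T ⊆ {x ∈ S | (a x).card = n},
      ¬ T.Countable ∧ ∀ x ∈ T, R ⊆ a x := by
    intro m
    induction m with
    | zero => exact ⟨∅, rfl, _, subset_rfl, hn, by simp⟩
    | succ m ih =>
      obtain ⟨R, hR, T, hT, hTc, hRT⟩ := ih
      obtain ⟨b, hb, hbT⟩ := hcon T (fun x hx => (hT hx).1) hTc R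
      refine ⟨insert b R, by rw [Finset.card_insert_of_notMem hb, hR], _,
        fun x hx => hT hx.1, hbT, ?_⟩
      rintro x ⟨hx, hbx⟩
      exact Finset.insert_subset hbx (hRT x hx)
  obtain ⟨R, hR, T, hT, hTc, hRT⟩ := key (n + 1)
  obtain ⟨x, hx⟩ : T.Nonempty := by
    rw [nonempty_iff_ne_empty]
    rintro rfl
    exact hTc countable_empty
  have h1 := Finset.card_le_card (hRT x hx)
  rw [hR, (hT hx).2] at h1
  omega

variable {L : Type} [Infinite L]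

theorem step (hL : ℵ_ Ordinal.omega0.{0} ≤ #L) (q : K L → Finset (Cond L)) (u : K L → L)
    (hq : ∀ y, ∀ c ∈ q y, c.2.2.1 ∈ SS sp c.1 c.2.1 y) (hu : ∀ y, u y ∈ y.lab)
    (D : Finset (Cov L)) (t : Cov L → ℕ) :
    ∃ (D' : Finset (Cov L)) (t' : Cov L → ℕ) (Ξ : Set (K L)) (i : ℕ), D ⊆ D' ∧
      (∀ β ∈ D, t' β = t β) ∧ (∀ y ∈ Ξ, i ≤ y.ar) ∧ InjOn u Ξ ∧ ¬ Ξ.Countable ∧
      ∀ β, Valid sp β → ∀ τ, (β ∈ D' → τ = t' β) →
        {x : K L | ∃ y ∈ Ξ, (β, i, x, τ) ∈ q y}.Countable := by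
  classical
  let Dv : Finset (Cov L) := D.filter (Valid sp)
  let hh : K L → ℕ → Finset (Cov L × K L) := fun y i =>
    ((q y).filter fun c => c.1 ∈ Dv ∧ c.2.1 = i ∧ c.2.2.2 = t c.1).image fun c => (c.1, c.2.2.1)
  let C : Finset (Cov L × K L) → ℕ → Set L := fun h i => {l | ∃ y, i ≤ y.ar ∧ hh y i = h ∧ u y = l}
  obtain ⟨h, i, hhi⟩ : ∃ h i, ¬ (C h i).Countable := by
    by_contra hcon
    push Not at hcon
    obtain ⟨y, -, hy⟩ := canonical hL Dv (fun β hβ => (Finset.mem_filter.1 hβ).2) C hcon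
    obtain ⟨i, hi, hy⟩ := hy (u y) (hu y)
    refine hy (hh y i) ?_ ⟨y, hi, rfl, rfl⟩
    intro c hc
    obtain ⟨c', hc', rfl⟩ := Finset.mem_image.1 hc
    obtain ⟨h1, h2, h3, h4⟩ := Finset.mem_filter.1 hc'
    refine ⟨h2, ?_⟩
    have h5 := hq y c' h1
    rw [h3] at h5
    exact h5
  let Ξ0 : Set (K L) := {y | i ≤ y.ar ∧ hh y i = h}
  have h0 : u '' Ξ0 = C h i := by
    ext l
    constructor
    · rintro ⟨y, ⟨h1, h2⟩, rfl⟩
      exact ⟨y, h1, h2, rfl⟩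
    · rintro ⟨y, h1, h2, rfl⟩
      exact ⟨y, ⟨h1, h2⟩, rfl⟩
  obtain ⟨Ξ1, h1, hbij⟩ := exists_subset_bijOn Ξ0 u
  have hΞ1 : ¬ Ξ1.Countable := by
    intro hc
    apply hhi
    rw [← h0, ← hbij.image_eq]
    exact hc.image u
  obtain ⟨Ξ2, h2, hΞ2, R, hR⟩ := root (fun y => (q y).image Prod.fst) Ξ1 hΞ1
  let mx : K L → ℕ := fun y => (q y).sup fun c => c.2.2.2
  obtain ⟨m, hm⟩ : ∃ m : ℕ, ¬ {y ∈ Ξ2 | mx y = m}.Countable := by
    by_contra hcon
    push Not at hcon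
    apply hΞ2
    refine (countable_iUnion hcon).mono ?_
    intro y hy
    exact mem_iUnion.2 ⟨mx y, hy, rfl⟩
  refine ⟨D ∪ R, fun β => if β ∈ D then t β else m + 1, {y ∈ Ξ2 | mx y = m}, i,
    Finset.subset_union_left, fun β hβ => if_pos hβ, fun y hy => (h1 (h2 hy.1)).1,
    hbij.injOn.mono fun y hy => h2 hy.1, hm, ?_⟩
  intro β hβ τ hτ
  by_cases hβD : β ∈ D
  · have hτ' := hτ (Finset.mem_union_left _ hβD)
    simp only [if_pos hβD] at hτ'
    refine ((h.finite_toSet.preimage (f := fun x : K L => (β, x))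
      (fun x _ x' _ hxx => by simpa using hxx)).countable).mono ?_
    rintro x ⟨y, ⟨hy, -⟩, hx⟩
    have h3 := (h1 (h2 hy)).2
    rw [mem_preimage, Finset.mem_coe, ← h3]
    refine Finset.mem_image.2 ⟨_, Finset.mem_filter.2 ⟨hx, ?_, rfl, hτ'⟩, rfl⟩
    exact Finset.mem_filter.2 ⟨hβD, hβ⟩
  · by_cases hβR : β ∈ R
    · have hτ' := hτ (Finset.mem_union_right _ hβR)
      simp only [if_neg hβD] at hτ'
      refine countable_empty.mono ?_
      rintro x ⟨y, ⟨-, hy⟩, hx⟩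
      have h3 : τ ≤ mx y := Finset.le_sup (f := fun c : Cond L => c.2.2.2) hx
      rw [hτ', hy] at h3
      omega
    · refine (Set.Countable.biUnion (hR β hβR) (t := fun y _ => {x | (β, i, x, τ) ∈ q y})
        fun y _ => ?_).mono ?_
      · refine ((q y).finite_toSet.preimage (f := fun x : K L => (β, i, x, τ))
          (fun x _ x' _ hxx => by simpa using hxx)).countable
      · rintro x ⟨y, ⟨hy, -⟩, hx⟩
        exact mem_iUnion₂.2 ⟨y, ⟨hy, Finset.mem_image.2 ⟨_, hx, rfl⟩⟩, hx⟩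

/-- A tester which is bad for countably many assignments of neighbourhoods. -/
theorem diag (hL : ℵ_ Ordinal.omega0.{0} ≤ #L) (q : ℕ → K L → Finset (Cond L))
    (u : ℕ → K L → L) (hq : ∀ k y, ∀ c ∈ q k y, c.2.2.1 ∈ SS sp c.1 c.2.1 y)
    (hu : ∀ k y, u k y ∈ y.lab) :
    ∃ E : Set (Finset (Cond L) × ℕ), Good E ∧ ∀ k, ∃ (i : ℕ) (Ξ : Set (K L)),
      ¬ Ξ.Countable ∧ InjOn (u k) Ξ ∧ ∀ y ∈ Ξ, i ≤ y.ar ∧ (q k y, i) ∈ E := by
  classical
  choose D' t' Ξ i h1 h2 h3 h4 h5 h6 using fun k : ℕ =>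
    step hL (q k) (u k) (hq k) (hu k)
  let st : ℕ → Finset (Cov L) × (Cov L → ℕ) := fun k =>
    Nat.rec (∅, fun _ => 0) (fun k s => (D' k s.1 s.2, t' k s.1 s.2)) k
  have hst : ∀ k, st (k + 1) = (D' k (st k).1 (st k).2, t' k (st k).1 (st k).2) := fun k => rfl
  have hmono : ∀ k m, k ≤ m → ∀ β ∈ (st k).1, β ∈ (st m).1 ∧ (st m).2 β = (st k).2 β := by
    intro k m hkm β hβ
    induction m, hkm using Nat.le_induction with
    | base => exact ⟨hβ, rfl⟩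
    | succ m _ ih =>
      rw [hst]
      refine ⟨h1 m _ _ ih.1, ?_⟩
      rw [← ih.2]
      exact h2 m _ _ β ih.1
  let j : Cov L → ℕ := fun β => if h : ∃ k, β ∈ (st k).1 then (st h.choose).2 β else 0
  have hj : ∀ k, ∀ β ∈ (st k).1, j β = (st k).2 β := by
    intro k β hβ
    have h : ∃ k, β ∈ (st k).1 := ⟨k, hβ⟩
    have hj1 : j β = (st h.choose).2 β := dif_pos h
    rw [hj1]
    rcases le_total k h.choose with hle | hle
    · exact (hmono _ _ hle β hβ).2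
    · exact (hmono _ _ hle β h.choose_spec).2.symm
  let Ξ' : ℕ → Set (K L) := fun k => Ξ k (st k).1 (st k).2
  let i' : ℕ → ℕ := fun k => i k (st k).1 (st k).2
  refine ⟨{p | ∃ k, ∃ y ∈ Ξ' k, p = (q k y, i' k)}, ?_, fun k => ⟨i' k, Ξ' k, h5 k _ _, h4 k _ _,
    fun y hy => ⟨h3 k _ _ y hy, k, y, hy, rfl⟩⟩⟩
  intro β hβ
  refine ⟨j β, ?_⟩
  have h7 : ∀ k, {x : K L | ∃ y ∈ Ξ' k, (β, i' k, x, j β) ∈ q k y}.Countable := by
    intro k
    refine h6 k _ _ β hβ (j β) fun h => ?_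
    exact hj (k + 1) β h
  refine (countable_iUnion fun k => (h7 k).image fun x => (x, i' k)).mono ?_
  rintro ⟨x, n⟩ ⟨q', ⟨k, y, hy, hq'⟩, hx⟩
  obtain ⟨rfl, rfl⟩ := Prod.mk.inj hq'
  exact mem_iUnion.2 ⟨k, x, ⟨y, hy, hx⟩, rfl⟩

/-- The cover of the range has no sequence of refinements as in the definition of
`δθ`-refinability. -/
theorem no_refinement (hL : ℵ_ Ordinal.omega0.{0} ≤ #L) (𝒱 : ℕ → Set (Set (YPt L)))
    (h𝒱 : ∀ n, (∀ V ∈ 𝒱 n, IsOpen V) ∧ ⋃₀ 𝒱 n = Set.univ ∧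
      ∀ V ∈ 𝒱 n, ∃ U ∈ range (UU (L := L)), V ⊆ U)
    (hcount : ∀ x, ∃ n, {V ∈ 𝒱 n | x ∈ V}.Countable) : False := by
  classical
  have hne : Nonempty L := inferInstance
  have h1 : ∀ k, ∀ V ∈ 𝒱 k, ∃ l, V ⊆ UU (L := L) l := by
    intro k V hV
    obtain ⟨_, ⟨l, rfl⟩, hl⟩ := (h𝒱 k).2.2 V hV
    exact ⟨l, hl⟩
  choose! lbl hlbl using h1
  have h2 : ∀ k (y : K L), ∃ V ∈ 𝒱 k, YPt.pt y ∈ V := fun k y =>
    mem_sUnion.1 ((h𝒱 k).2.1 ▸ mem_univ (YPt.pt y) : YPt.pt y ∈ ⋃₀ 𝒱 k)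
  choose G hG hyG using h2
  have h3 : ∀ k (y : K L), ∀ i, i ≤ y.ar → ∃ (q : Finset (Cond L)) (r : Finset L)
      (F : Set (XPt L)), Ok q r y ∧ F.Finite ∧ nb y.ar q r i \ F ⊆ proj ⁻¹' G k y := by
    intro k y i hi
    obtain ⟨q, r, F, h4, h5, -, h6⟩ := isOpen_XPt.1 (isOpen_YPt.1 ((h𝒱 k).1 _ (hG k y))) y i hi
      (hyG k y)
    exact ⟨q, r, F, h4, h5, h6⟩
  choose! q0 r0 F0 h4 h5 h6 using h3
  have hle : ∀ (y : K L) (i' : ℕ), i' ∈ Finset.range (y.ar + 1) ↔ i' ≤ y.ar := by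
    intro y i'
    rw [Finset.mem_range, Nat.lt_succ_iff]
  let q : ℕ → K L → Finset (Cond L) := fun k y => (Finset.range (y.ar + 1)).biUnion (q0 k y)
  let F : ℕ → K L → Set (XPt L) := fun k y => ⋃ i ∈ Finset.range (y.ar + 1), F0 k y i
  have hF : ∀ k y, (F k y).Finite := fun k y =>
    Set.Finite.biUnion (Finset.range (y.ar + 1)).finite_toSet
      fun i hi => h5 k y i ((hle y i).1 hi)
  let u : ℕ → K L → L := fun k y => lbl k (G k y)
  obtain ⟨E, hE, hdiag⟩ := diag hL q u (by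
    intro k y c hc
    obtain ⟨i, hi, hc⟩ := Finset.mem_biUnion.1 hc
    exact (h4 k y i ((hle y i).1 hi)).1 c hc) (fun k y => hlbl k _ (hG k y) (hyG k y))
  choose i Ξ h7 h8 h9 using hdiag
  let w : L → XPt L := fun a => XPt.ts E hE a
  have hw : Function.Injective w := by
    intro a a' h
    simpa [w] using h
  have hmem : ∀ k, ∀ y ∈ Ξ k, ∀ a, w a ∉ F k y → YPt.ts E hE a ∈ G k y := by
    intro k y hy a ha
    obtain ⟨h10, h11⟩ := h9 k y hy
    refine h6 k y (i k) h10 (show w a ∈ nb y.ar (q0 k y (i k)) (r0 k y (i k)) (i k) \ F0 k y (i k)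
      from ⟨⟨q k y, h11, ?_⟩, fun h => ha ?_⟩)
    · exact Finset.subset_biUnion_of_mem (q0 k y) ((hle y _).2 h10)
    · exact mem_iUnion₂.2 ⟨i k, (hle y _).2 h10, h⟩
  let bad : ℕ → Set L := fun k => {a | {y ∈ Ξ k | w a ∉ F k y}.Countable}
  have hbad : ∀ k, (bad k).Finite := by
    intro k
    by_contra hinf
    obtain ⟨D, hD, hDc, hDi⟩ : ∃ D ⊆ bad k, D.Countable ∧ D.Infinite := by
      let em := (show (bad k).Infinite from hinf).natEmbedding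
      refine ⟨range fun n => (em n : L), ?_, countable_range _,
        infinite_range_of_injective fun n m h => em.injective (Subtype.ext h)⟩
      rintro _ ⟨n, rfl⟩
      exact (em n).2
    have h10 : (⋃ a ∈ D, {y ∈ Ξ k | w a ∉ F k y}).Countable := hDc.biUnion fun a ha => hD ha
    obtain ⟨y, hy, hyn⟩ : ∃ y ∈ Ξ k, y ∉ ⋃ a ∈ D, {y ∈ Ξ k | w a ∉ F k y} := by
      by_contra hcon
      push Not at hcon
      exact h7 k (h10.mono hcon)
    have h11 : w '' D ⊆ F k y := by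
      rintro _ ⟨a, ha, rfl⟩
      by_contra ha'
      exact hyn (mem_iUnion₂.2 ⟨a, ha, hy, ha'⟩)
    exact (hDi.image hw.injOn) ((hF k y).subset h11)
  obtain ⟨a, ha⟩ : ∃ a, ∀ k, a ∉ bad k := by
    by_contra hcon
    push Not at hcon
    have h10 : (Set.univ : Set L).Countable := by
      refine (countable_iUnion fun k => (hbad k).countable).mono fun a _ => ?_
      obtain ⟨k, hk⟩ := hcon a
      exact mem_iUnion.2 ⟨k, hk⟩
    have h11 : #L ≤ ℵ₀ := by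
      rw [← mk_univ]
      exact le_aleph0_iff_set_countable.2 h10
    have h12 : (ℵ₀ : Cardinal.{0}) < ℵ_ Ordinal.omega0.{0} := by
      rw [← aleph_zero]
      exact aleph_lt_aleph.2 Ordinal.omega0_pos
    exact absurd (hL.trans h11) (not_le.2 h12)
  obtain ⟨k, hk⟩ := hcount (YPt.ts E hE a)
  refine ha k ?_
  have h10 : {y ∈ Ξ k | w a ∉ F k y} ⊆ Ξ k := fun y hy => hy.1
  refine Set.countable_of_injective_of_countable_image ((h8 k).mono h10) ?_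
  refine (hk.image (lbl k)).mono ?_
  rintro _ ⟨y, ⟨hy, hyF⟩, rfl⟩
  exact ⟨G k y, ⟨hG k y, hmem k y hy a hyF⟩, rfl⟩

end Pool.Agent.Zk90.DTN
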