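import Pool.Agent.Zk90.DTN.Canon

set_option autoImplicit false

/-! The spaces and the mapping. -/

namespace Pool.Agent.Zk90.DTN

open Set Cardinal Topology

/-- A space is `δθ`-refinable (submetalindelöf). -/
def DTR (X : Type) [TopologicalSpace X] : Prop :=
  ∀ 𝒰 : Set (Set X), (∀ U ∈ 𝒰, IsOpen U) → ⋃₀ 𝒰 = Set.univ →
    ∃ 𝒱 : ℕ → Set (Set X),
      (∀ n, (∀ V ∈ 𝒱 n, IsOpen V) ∧ ⋃₀ 𝒱 n = Set.univ ∧ ∀ V ∈ 𝒱 n, ∃ U ∈ 𝒰, V ⊆ U) ∧
      ∀ x, ∃ n, {V ∈ 𝒱 n | x ∈ V}.Countable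

/-- A condition `(β, i, x, j)`: the point lies in the member with index `(x, i)` of the `j`-th
refinement of the cover `β`. -/
abbrev Cond (L : Type) : Type := Cov L × ℕ × K L × ℕ

variable {L : Type} [Infinite L]

/-- The testers. -/
def Good (E : Set (Finset (Cond L) × ℕ)) : Prop :=
  ∀ β, Valid sp β → ∃ j, {p : K L × ℕ | ∃ q, (q, p.2) ∈ E ∧ (β, p.2, p.1, j) ∈ q}.Countable

variable (L) in
/-- The domain of the example. -/
inductive XPt : Type
  | pt (y : K L) (i : ℕ) (h : i ≤ y.ar) : XPt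
  | ts (E : Set (Finset (Cond L) × ℕ)) (hE : Good E) (a : L) : XPt

variable (L) in
/-- The range of the example. -/
inductive YPt : Type
  | pt (y : K L) : YPt
  | ts (E : Set (Finset (Cond L) × ℕ)) (hE : Good E) (a : L) : YPt

/-- The mapping. -/
def proj : XPt L → YPt L
  | .pt y _ _ => .pt y
  | .ts E hE a => .ts E hE a

/-- The point satisfies the conditions. -/
def Ok (q : Finset (Cond L)) (r : Finset L) (y : K L) : Prop :=
  (∀ c ∈ q, c.2.2.1 ∈ SS sp c.1 c.2.1 y) ∧ (r : Set L) ⊆ y.lab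

/-- The basic neighbourhoods. -/
def nb (n : ℕ) (q : Finset (Cond L)) (r : Finset L) (i : ℕ) : Set (XPt L) :=
  {x | match x with
    | .pt y i' _ => i' = i ∧ y.ar = n ∧ Ok q r y
    | .ts E _ _ => ∃ q', (q', i) ∈ E ∧ q ⊆ q'}

theorem pt_mem_nb {n : ℕ} {q : Finset (Cond L)} {r : Finset L} {i : ℕ} {y : K L} {i' : ℕ}
    {h : i' ≤ y.ar} : XPt.pt y i' h ∈ nb n q r i ↔ i' = i ∧ y.ar = n ∧ Ok q r y := Iff.rfl

theorem ts_mem_nb {n : ℕ} {q : Finset (Cond L)} {r : Finset L} {i : ℕ}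
    {E : Set (Finset (Cond L) × ℕ)} {hE : Good E} {a : L} :
    XPt.ts E hE a ∈ nb n q r i ↔ ∃ q', (q', i) ∈ E ∧ q ⊆ q' := Iff.rfl

theorem nb_mono {n : ℕ} {q q' : Finset (Cond L)} {r r' : Finset L} {i : ℕ} (hq : q ⊆ q')
    (hr : r ⊆ r') : nb n q' r' i ⊆ nb n q r i := by
  intro x hx
  cases x with
  | pt y i' h =>
    obtain ⟨h1, h2, h3, h4⟩ := hx
    exact ⟨h1, h2, fun c hc => h3 c (hq hc), fun l hl => h4 (hr hl)⟩
  | ts E hE a =>
    obtain ⟨q'', h1, h2⟩ := hx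
    exact ⟨q'', h1, hq.trans h2⟩

open Classical in
instance : TopologicalSpace (XPt L) where
  IsOpen W := ∀ y i h, XPt.pt y i h ∈ W → ∃ (q : Finset (Cond L)) (r : Finset L)
    (F : Set (XPt L)), Ok q r y ∧ F.Finite ∧ XPt.pt y i h ∉ F ∧ nb y.ar q r i \ F ⊆ W
  isOpen_univ := fun y i h _ => ⟨∅, ∅, ∅, ⟨by simp, by simp⟩, finite_empty, by simp, by simp⟩
  isOpen_inter := by
    intro W W' hW hW' y i h hy
    obtain ⟨q, r, F, h1, h2, h3, h4⟩ := hW y i h hy.1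
    obtain ⟨q', r', F', h1', h2', h3', h4'⟩ := hW' y i h hy.2
    refine ⟨q ∪ q', r ∪ r', F ∪ F', ⟨?_, ?_⟩, h2.union h2', ?_, ?_⟩
    · intro c hc
      rcases Finset.mem_union.1 hc with hc | hc
      · exact h1.1 c hc
      · exact h1'.1 c hc
    · rw [Finset.coe_union]
      exact union_subset h1.2 h1'.2
    · rintro (h | h)
      · exact h3 h
      · exact h3' h
    · rintro x ⟨hx, hxF⟩
      refine ⟨h4 ⟨nb_mono Finset.subset_union_left Finset.subset_union_left hx,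
        fun h => hxF (Or.inl h)⟩, h4' ⟨nb_mono Finset.subset_union_right
        Finset.subset_union_right hx, fun h => hxF (Or.inr h)⟩⟩
  isOpen_sUnion := by
    intro 𝒲 h𝒲 y i h hy
    obtain ⟨W, hW, hyW⟩ := hy
    obtain ⟨q, r, F, h1, h2, h3, h4⟩ := h𝒲 W hW y i h hyW
    exact ⟨q, r, F, h1, h2, h3, h4.trans (subset_sUnion_of_mem hW)⟩

theorem isOpen_XPt {W : Set (XPt L)} : IsOpen W ↔ ∀ y i h, XPt.pt y i h ∈ W →
    ∃ (q : Finset (Cond L)) (r : Finset L) (F : Set (XPt L)), Ok q r y ∧ F.Finite ∧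
      XPt.pt y i h ∉ F ∧ nb y.ar q r i \ F ⊆ W := Iff.rfl

instance : TopologicalSpace (YPt L) := TopologicalSpace.coinduced proj inferInstance

theorem isOpen_YPt {G : Set (YPt L)} : IsOpen G ↔ IsOpen (proj ⁻¹' G) := Iff.rfl

theorem isOpen_nb (n : ℕ) (q : Finset (Cond L)) (r : Finset L) (i : ℕ) {F : Set (XPt L)}
    (hF : F.Finite) : IsOpen (nb n q r i \ F) := by
  rw [isOpen_XPt]
  rintro y i' h ⟨⟨rfl, rfl, h1⟩, h2⟩
  exact ⟨q, r, F, h1, hF, h2, subset_rfl⟩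

theorem isOpen_ts (E : Set (Finset (Cond L) × ℕ)) (hE : Good E) (a : L) :
    IsOpen ({XPt.ts E hE a} : Set (XPt L)) := by
  rw [isOpen_XPt]
  intro y i h hy
  simp at hy

theorem isOpen_compl_finite {F : Set (XPt L)} (hF : F.Finite) : IsOpen Fᶜ := by
  rw [isOpen_XPt]
  intro y i h hy
  exact ⟨∅, ∅, F, ⟨by simp, by simp⟩, hF, hy, fun x hx => hx.2⟩

theorem fiber_finite (w : YPt L) : (proj ⁻¹' {w}).Finite := by
  cases w with
  | pt y =>
    have h1 : (range fun k : Fin (y.ar + 1) => XPt.pt y k (Nat.lt_succ_iff.1 k.2)).Finite :=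
      finite_range _
    refine h1.subset ?_
    rintro (⟨y', i, h⟩ | ⟨E, hE, a⟩) hx
    · have : y' = y := by simpa [proj] using hx
      subst this
      exact ⟨⟨i, Nat.lt_succ_iff.2 h⟩, rfl⟩
    · simp [proj] at hx
  | ts E hE a =>
    refine (finite_singleton (XPt.ts E hE a)).subset ?_
    rintro (⟨y', i, h⟩ | ⟨E', hE', a'⟩) hx
    · simp [proj] at hx
    · have h1 : E' = E ∧ a' = a := by simpa [proj] using hx
      obtain ⟨rfl, rfl⟩ := h1
      rfl

theorem proj_surjective : Function.Surjective (proj (L := L)) := by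
  rintro (⟨y⟩ | ⟨E, hE, a⟩)
  · exact ⟨XPt.pt y 0 (Nat.zero_le _), rfl⟩
  · exact ⟨XPt.ts E hE a, rfl⟩

theorem proj_continuous : Continuous (proj (L := L)) := continuous_coinduced_rng

instance : T1Space (XPt L) := ⟨fun x => ⟨isOpen_compl_finite (finite_singleton x)⟩⟩

instance : T1Space (YPt L) := ⟨fun y => ⟨by
  rw [isOpen_YPt, preimage_compl]
  exact isOpen_compl_finite (fiber_finite y)⟩⟩

open Classical in
theorem proj_isClosedMap : IsClosedMap (proj (L := L)) := by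
  intro C hC
  rw [← isOpen_compl_iff, isOpen_YPt, isOpen_XPt]
  intro y i h hy
  have h1 : ∀ i', i' ≤ y.ar → ∃ (q : Finset (Cond L)) (r : Finset L) (F : Set (XPt L)),
      Ok q r y ∧ F.Finite ∧ (∀ h, XPt.pt y i' h ∉ F) ∧ nb y.ar q r i' \ F ⊆ Cᶜ := by
    intro i' hi'
    have h2 : XPt.pt y i' hi' ∈ Cᶜ := fun h2 => hy ⟨_, h2, rfl⟩
    obtain ⟨q, r, F, h3, h4, h5, h6⟩ := isOpen_XPt.1 hC.isOpen_compl y i' hi' h2
    exact ⟨q, r, F, h3, h4, fun _ => h5, h6⟩
  choose! q r F h2 h3 h4 h5 using h1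
  let Q : Finset (Cond L) := (Finset.range (y.ar + 1)).biUnion q
  let R : Finset L := (Finset.range (y.ar + 1)).biUnion r
  have hle : ∀ i', i' ∈ Finset.range (y.ar + 1) ↔ i' ≤ y.ar := by
    intro i'
    rw [Finset.mem_range, Nat.lt_succ_iff]
  have hqQ : ∀ i', i' ≤ y.ar → q i' ⊆ Q := fun i' hi' =>
    Finset.subset_biUnion_of_mem q ((hle i').2 hi')
  have hrR : ∀ i', i' ≤ y.ar → r i' ⊆ R := fun i' hi' =>
    Finset.subset_biUnion_of_mem r ((hle i').2 hi')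
  let B : Set (YPt L) := (⋃ i' ∈ Finset.range (y.ar + 1), proj '' F i') \ {YPt.pt y}
  have hB : B.Finite := by
    refine Set.Finite.subset (Set.Finite.biUnion (Finset.range (y.ar + 1)).finite_toSet
      fun i' hi' => (h3 i' ((hle i').1 hi')).image proj) sdiff_subset
  have hBmem : ∀ i', i' ≤ y.ar → ∀ x ∈ F i', proj x ≠ YPt.pt y → proj x ∈ B := by
    intro i' hi' x hx hne
    exact ⟨mem_iUnion₂.2 ⟨i', (hle i').2 hi', x, hx, rfl⟩, hne⟩
  refine ⟨Q, R, proj ⁻¹' B, ⟨?_, ?_⟩, hB.preimage' fun w _ => fiber_finite w, ?_, ?_⟩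
  · intro c hc
    obtain ⟨i', hi', hc⟩ := Finset.mem_biUnion.1 hc
    exact (h2 i' ((hle i').1 hi')).1 c hc
  · intro l hl
    obtain ⟨i', hi', hl⟩ := Finset.mem_biUnion.1 (Finset.mem_coe.1 hl)
    exact (h2 i' ((hle i').1 hi')).2 hl
  · exact fun h => h.2 rfl
  · rintro x ⟨hx, hxB⟩ ⟨x', hx'C, hx'⟩
    cases x with
    | pt y' i0 h0 =>
      cases x' with
      | ts E hE a => simp [proj] at hx'
      | pt y'' i' h' =>
        have : y'' = y' := by simpa [proj] using hx'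
        subst this
        obtain ⟨rfl, har, hok⟩ := hx
        have hi' : i' ≤ y.ar := har ▸ h'
        refine h5 i' hi' ⟨pt_mem_nb.2 ⟨rfl, har, fun c hc => hok.1 c (hqQ i' hi' hc),
          fun l hl => hok.2 (hrR i' hi' hl)⟩, fun hF => ?_⟩ hx'C
        by_cases hyy : y'' = y
        · subst hyy
          exact h4 i' hi' _ hF
        · have h7 := hBmem i' hi' (XPt.pt y'' i' h') hF (by simpa [proj] using hyy)
          exact hxB h7
    | ts E hE a =>
      cases x' with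
      | pt y'' i' h' => simp [proj] at hx'
      | ts E' hE' a' =>
        have h6 : E' = E ∧ a' = a := by simpa [proj] using hx'
        obtain ⟨rfl, rfl⟩ := h6
        refine h5 i h ⟨nb_mono (hqQ i h) (hrR i h) hx, fun hF => ?_⟩ hx'C
        exact hxB (hBmem i h _ hF (by simp [proj]))

/-- The point of `K` below a point of the domain. -/
def kof (x₀ : K L) : XPt L → K L
  | .pt y _ _ => y
  | .ts _ _ _ => x₀

open Classical in
/-- The domain is `δθ`-refinable. -/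
theorem dtr_XPt : DTR (XPt L) := by
  intro 𝒰 hU hcov
  have h1 : ∀ (y : K L) (i : ℕ), i ≤ y.ar → ∃ (U : Set (XPt L)) (q : Finset (Cond L))
      (r : Finset L) (F : Set (XPt L)), U ∈ 𝒰 ∧ Ok q r y ∧ F.Finite ∧
        (∀ h, XPt.pt y i h ∉ F) ∧ nb y.ar q r i \ F ⊆ U := by
    intro y i h
    obtain ⟨U, hU1, hU2⟩ := mem_sUnion.1 (hcov ▸ mem_univ (XPt.pt y i h) : XPt.pt y i h ∈ ⋃₀ 𝒰)
    obtain ⟨q, r, F, h3, h4, h5, h6⟩ := isOpen_XPt.1 (hU U hU1) y i h hU2
    exact ⟨U, q, r, F, hU1, h3, h4, fun _ => h5, h6⟩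
  choose! U q r F hU1 hok hF hyF hsub using h1
  have hle : ∀ (y : K L) (i' : ℕ), i' ∈ Finset.range (y.ar + 1) ↔ i' ≤ y.ar := by
    intro y i'
    rw [Finset.mem_range, Nat.lt_succ_iff]
  let Q : K L → Finset (Cond L) := fun y => (Finset.range (y.ar + 1)).biUnion (q y)
  let R : K L → Finset L := fun y => (Finset.range (y.ar + 1)).biUnion (r y)
  let Ex : K L → Set (K L) := fun y => {y' | y' ≠ y ∧ ∃ i ≤ y.ar, ∃ h', XPt.pt y' i h' ∈ F y i}
  have hEx : ∀ y, (Ex y).Finite := by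
    intro y
    have h2 : (⋃ i ∈ Finset.range (y.ar + 1), kof y '' F y i).Finite :=
      Set.Finite.biUnion (Finset.range (y.ar + 1)).finite_toSet
        fun i hi => (hF y i ((hle y i).1 hi)).image (kof y)
    refine h2.subset ?_
    rintro y' ⟨-, i, hi, h', hy'⟩
    exact mem_iUnion₂.2 ⟨i, (hle y i).2 hi, _, hy', rfl⟩
  let a : K L → Dat L := fun y =>
    ((Q y).toList.map (fun c => (c.2.1, c.2.2.1)), R y, (hEx y).toFinset)
  let f : (Σ x : K L, Fin (a x).1.length) → Cov L := fun b =>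
    ((Q b.1).toList[(b.2 : ℕ)]'(by
      have := b.2.2
      simpa [a] using this)).1
  let β : Cov L := ⟨a, f⟩
  have hsat : ∀ x y, sat sp β x y ↔ x.ar = y.ar ∧ ((R x : Finset L) : Set L) ⊆ y.lab ∧
      y ∉ Ex x ∧ ∀ c ∈ Q x, c.2.2.1 ∈ SS sp c.1 c.2.1 y := by
    intro x y
    rw [sat_mk]
    refine and_congr Iff.rfl (and_congr Iff.rfl (and_congr ?_ ?_))
    · simp [a]
    · constructor
      · intro h c hc
        obtain ⟨k, hk, hkc⟩ := List.getElem_of_mem (Finset.mem_toList.2 hc)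
        have h2 := h ⟨k, by simpa [a] using hk⟩
        simp only [a, f, List.get_eq_getElem, List.getElem_map, hkc] at h2
        exact h2
      · intro h k
        have hk : (k : ℕ) < (Q x).toList.length := by
          have := k.2
          simpa [a] using this
        have h2 := h ((Q x).toList[(k : ℕ)]) (Finset.mem_toList.1 (List.getElem_mem hk))
        simp only [a, f, List.get_eq_getElem, List.getElem_map]
        exact h2
  have hval : Valid sp β := by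
    intro y
    rw [hsat]
    refine ⟨rfl, ?_, fun h => h.1 rfl, ?_⟩
    · intro l hl
      obtain ⟨i', hi', hl⟩ := Finset.mem_biUnion.1 (Finset.mem_coe.1 hl)
      exact (hok y i' ((hle y i').1 hi')).2 hl
    · intro c hc
      obtain ⟨i', hi', hc⟩ := Finset.mem_biUnion.1 hc
      exact (hok y i' ((hle y i').1 hi')).1 c hc
  let V : ℕ → K L → ℕ → Set (XPt L) := fun j x i =>
    nb x.ar (insert (β, i, x, j) (q x i)) (r x i) i \ F x i
  have hVts : ∀ j x i E hE a, XPt.ts E hE a ∈ V j x i → ∃ q', (q', i) ∈ E ∧ (β, i, x, j) ∈ q' := by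
    rintro j x i E hE a ⟨⟨q', h2, h3⟩, -⟩
    exact ⟨q', h2, h3 (Finset.mem_insert_self _ _)⟩
  refine ⟨fun j => {A | ∃ x i, i ≤ x.ar ∧ A = V j x i} ∪ {A | ∃ E hE a, A = {XPt.ts E hE a}},
    fun j => ⟨?_, ?_, ?_⟩, ?_⟩
  · rintro A (⟨x, i, hi, rfl⟩ | ⟨E, hE, a, rfl⟩)
    · exact isOpen_nb _ _ _ _ (hF x i hi)
    · exact isOpen_ts E hE a
  · refine eq_univ_of_forall ?_
    rintro (⟨y, i, h⟩ | ⟨E, hE, a⟩)
    · obtain ⟨x, hxS⟩ := SS_nonempty sp hval i y
      obtain ⟨har, hR, hEx', hQ⟩ := (hsat x y).1 (rule sp hxS)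
      have hix : i ≤ x.ar := har ▸ h
      refine ⟨V j x i, Or.inl ⟨x, i, hix, rfl⟩, ⟨rfl, har.symm, ?_, ?_⟩, ?_⟩
      · intro c hc
        rcases Finset.mem_insert.1 hc with rfl | hc
        · exact hxS
        · exact hQ c (Finset.mem_biUnion.2 ⟨i, (hle x i).2 hix, hc⟩)
      · intro l hl
        exact hR (Finset.mem_coe.2 (Finset.mem_biUnion.2 ⟨i, (hle x i).2 hix, hl⟩))
      · intro hF'
        by_cases hyx : y = x
        · subst hyx
          exact hyF y i hix _ hF'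
        · exact hEx' ⟨hyx, i, hix, h, hF'⟩
    · exact ⟨_, Or.inr ⟨E, hE, a, rfl⟩, rfl⟩
  · rintro A (⟨x, i, hi, rfl⟩ | ⟨E, hE, a, rfl⟩)
    · refine ⟨U x i, hU1 x i hi, subset_trans ?_ (hsub x i hi)⟩
      exact sdiff_subset_sdiff_left (nb_mono (Finset.subset_insert _ _) subset_rfl)
    · obtain ⟨U, hU1, hU2⟩ := mem_sUnion.1
        (hcov ▸ mem_univ (XPt.ts E hE a) : XPt.ts E hE a ∈ ⋃₀ 𝒰)
      exact ⟨U, hU1, singleton_subset_iff.2 hU2⟩
  · rintro (⟨y, i, h⟩ | ⟨E, hE, a⟩)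
    · refine ⟨0, ?_⟩
      refine (((SS_finite sp β i y).image fun x => V 0 x i).countable).mono ?_
      rintro A ⟨⟨x, i', hi', rfl⟩ | ⟨E, hE, a, rfl⟩, hA⟩
      · obtain ⟨⟨rfl, -, hok', -⟩, -⟩ := hA
        exact ⟨x, hok' _ (Finset.mem_insert_self _ _), rfl⟩
      · simp at hA
    · obtain ⟨j, hj⟩ := hE β hval
      refine ⟨j, ?_⟩
      refine ((hj.image fun p => V j p.1 p.2).union (countable_singleton {XPt.ts E hE a})).mono ?_
      rintro A ⟨⟨x, i', hi', rfl⟩ | ⟨E', hE', a', rfl⟩, hA⟩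
      · exact Or.inl ⟨(x, i'), hVts _ _ _ _ _ _ hA, rfl⟩
      · right
        rw [mem_singleton_iff] at hA
        rw [hA]
        rfl

/-- The cover without refinements. -/
def UU (l : L) : Set (YPt L) :=
  {w | match w with
    | .pt y => l ∈ y.lab
    | .ts _ _ _ => True}

theorem isOpen_UU (l : L) : IsOpen (UU l) := by
  rw [isOpen_YPt, isOpen_XPt]
  intro y i h hy
  refine ⟨∅, {l}, ∅, ⟨by simp, ?_⟩, finite_empty, by simp, ?_⟩
  · rw [Finset.coe_singleton, singleton_subset_iff]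
    exact hy
  · rintro (⟨y', i', h'⟩ | ⟨E, hE, a⟩) ⟨hx, -⟩
    · exact hx.2.2.2 (by simp)
    · trivial

theorem cover_UU : ⋃₀ range (UU (L := L)) = Set.univ := by
  rw [sUnion_range]
  refine eq_univ_of_forall ?_
  rintro (⟨y⟩ | ⟨E, hE, a⟩)
  · obtain ⟨l, hl⟩ := y.lab_nonempty
    exact mem_iUnion.2 ⟨l, hl⟩
  · exact mem_iUnion.2 ⟨a, trivial⟩

end Pool.Agent.Zk90.DTN
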